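import Pool.Agent.H79.LB.ZED

/-!
# MP_2059f1_ag, module L-PHAM: `VV n → OO n` is a homotopy equivalence
-/

open Topology Set Filter

namespace Pool.Agent.H79.LB

open Pool.Agent.H64.LB

theorem isClosed_tri : IsClosed tri := by
  have h : tri = {a : ℂ | (a ^ 3).im = 0 ∧ (a ^ 3).re ≤ 0} := by
    ext a
    constructor
    · rintro ⟨t, ht, h⟩
      refine ⟨?_, ?_⟩
      · rw [h]; simp
      · rw [h]; simpa using ht
    · rintro ⟨h1, h2⟩
      exact ⟨(a ^ 3).re, h2, by apply Complex.ext <;> simp [h1]⟩
  rw [h]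
  apply IsClosed.inter
  · exact isClosed_eq (Complex.continuous_im.comp (continuous_pow 3)) continuous_const
  · exact isClosed_le (Complex.continuous_re.comp (continuous_pow 3)) continuous_const

theorem tri_nonempty : tri.Nonempty := ⟨0, 0, le_refl _, by simp⟩

/-- distance to the tripod -/
noncomputable def dT (a : ℂ) : ℝ := Metric.infDist a tri

theorem dT_nonneg (a : ℂ) : 0 ≤ dT a := Metric.infDist_nonneg

theorem dT_eq_zero (a : ℂ) : dT a = 0 ↔ a ∈ tri := by
  rw [dT, ← isClosed_tri.mem_iff_infDist_zero tri_nonempty]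

theorem continuous_dT : Continuous dT := Metric.continuous_infDist_pt _

section W
variable {n : ℕ}

/-- the weight -/
noncomputable def ww (p : OO n) : ℝ := dT p.1.1 ^ 3 / (dT p.1.1 ^ 3 + en p.1.2 ^ 2)

theorem den_pos (p : OO n) : 0 < dT p.1.1 ^ 3 + en p.1.2 ^ 2 := by
  have h1 : 0 ≤ dT p.1.1 ^ 3 := pow_nonneg (dT_nonneg _) 3
  have h2 : 0 ≤ en p.1.2 ^ 2 := sq_nonneg _
  rcases eq_or_lt_of_le h2 with h | h
  · have h3 : p.1.2 = 0 := en_eq_zero.1 (pow_eq_zero_iff two_ne_zero |>.1 h.symm)
    have h4 : ¬ p.1.1 ∈ tri := fun ht => p.2 ⟨h3, ht⟩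
    have h5 : dT p.1.1 ≠ 0 := fun h0 => h4 ((dT_eq_zero _).1 h0)
    have h6 : 0 < dT p.1.1 := lt_of_le_of_ne (dT_nonneg _) (Ne.symm h5)
    positivity
  · linarith

theorem ww_nonneg (p : OO n) : 0 ≤ ww p :=
  div_nonneg (pow_nonneg (dT_nonneg _) 3) (den_pos p).le

theorem ww_le_one (p : OO n) : ww p ≤ 1 := by
  rw [ww, div_le_one (den_pos p)]
  have h2 : 0 ≤ en p.1.2 ^ 2 := sq_nonneg _
  linarith

theorem ww_tri (p : OO n) (h : p.1.1 ∈ tri) : ww p = 0 := by
  rw [ww, (dT_eq_zero _).2 h]; simp

theorem ww_x0 (p : OO n) (h : p.1.2 = 0) : ww p = 1 := by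
  rw [ww, h, en_zero]
  have := den_pos p
  rw [h, en_zero] at this
  rw [show dT p.1.1 ^ 3 + (0 : ℝ) ^ 2 = dT p.1.1 ^ 3 by ring] at this ⊢
  exact div_self this.ne'

theorem ww_lt_one (p : OO n) (h : p.1.2 ≠ 0) : ww p < 1 := by
  rw [ww, div_lt_one (den_pos p)]
  have h2 : 0 < en p.1.2 := lt_of_le_of_ne (en_nonneg _) (fun h0 => h (en_eq_zero.1 h0.symm))
  have : 0 < en p.1.2 ^ 2 := by positivity
  linarith

theorem continuous_ww : Continuous (ww : OO n → ℝ) := by
  unfold ww
  have h1 : Continuous fun p : OO n => dT p.1.1 :=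
    continuous_dT.comp (continuous_fst.comp continuous_subtype_val)
  have h2 : Continuous fun p : OO n => en p.1.2 :=
    continuous_en.comp (continuous_snd.comp continuous_subtype_val)
  exact (h1.pow 3).div ((h1.pow 3).add (h2.pow 2)) fun p => (den_pos p).ne'

end W

/-- **L-PHAM** -/
theorem pham (hcub : T_CUB) (hzed : T_ZED) : T_PHAM := by
  intro n
  obtain ⟨f, fc, f3, f0, f1⟩ := hcub
  obtain ⟨Z, Zc, Z2, Z1, Z0⟩ := hzed n
  -- the inverse
  have hN : ∀ p : OO n, (f p.1.1 (ww p) 1) ^ 3 + ∑ i, (Z p.1.2 p.1.2 (1 - ww p) 0 i) ^ 2 = 1 := by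
    intro p
    rw [f3 _ _ _ (ww_nonneg p) (right_mem_Icc.2 zero_le_one) (ww_tri p),
      Z2 _ _ _ _ (le_refl 0) (fun h => by rw [ww_x0 p h]; simp)
        (fun _ => by have := ww_le_one p; linarith)]
    push_cast
    ring
  -- continuity of the two components along a map into OO
  have hfc : ∀ {P : Type} [TopologicalSpace P] (a : P → ℂ) (r s : P → ℝ), Continuous a →
      Continuous r → Continuous s → (∀ q, 0 ≤ r q) → (∀ q, s q ∈ Icc (0 : ℝ) 1) →
      (∀ q, a q ∈ tri → r q = 0) → Continuous fun q => f (a q) (r q) (s q) := by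
    intro P _ a r s ha hr hs h1 h2 h3
    exact fc.comp_continuous (ha.prodMk (hr.prodMk hs)) fun q => ⟨h1 q, h2 q, h3 q⟩
  have hZc : ∀ {P : Type} [TopologicalSpace P] (x y : P → Fin n → ℝ) (ρ μ : P → ℝ),
      Continuous x → Continuous y → Continuous ρ → Continuous μ → (∀ q, 0 ≤ μ q) →
      (∀ q, x q = 0 → ρ q ≤ 0) → (∀ q, y q = 0 → 0 ≤ ρ q) →
      Continuous fun q => Z (x q) (y q) (ρ q) (μ q) := by
    intro P _ x y ρ μ hx hy hρ hμ h1 h2 h3
    exact Zc.comp_continuous (hx.prodMk (hy.prodMk (hρ.prodMk hμ))) fun q => ⟨h1 q, h2 q, h3 q⟩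
  have hOa : Continuous fun p : OO n => p.1.1 := continuous_fst.comp continuous_subtype_val
  have hOx : Continuous fun p : OO n => p.1.2 := continuous_snd.comp continuous_subtype_val
  let N : C(OO n, VV n) :=
    { toFun := fun p => ⟨(f p.1.1 (ww p) 1, Z p.1.2 p.1.2 (1 - ww p) 0), hN p⟩
      continuous_toFun := by
        refine Continuous.subtype_mk (Continuous.prodMk ?_ ?_) _
        · exact hfc _ _ _ hOa continuous_ww continuous_const ww_nonneg
            (fun _ => right_mem_Icc.2 zero_le_one) ww_tri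
        · exact hZc _ _ _ _ hOx hOx (continuous_const.sub continuous_ww) continuous_const
            (fun _ => le_refl _) (fun p h => by rw [ww_x0 p h]; simp)
            (fun p _ => by have := ww_le_one p; linarith) }
  refine ⟨⟨VV.re n, N, ?_, ?_⟩, rfl⟩
  · -- N ∘ re ~ id
    let rr : VV n → ℝ := fun p => ww (VV.re n p)
    have hrr : Continuous rr := continuous_ww.comp (VV.re n).continuous
    let X : VV n → Fin n → ℝ := fun p i => (p.1.2 i).re
    let Y : VV n → Fin n → ℝ := fun p i => (p.1.2 i).im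
    have hVz : Continuous fun p : VV n => p.1.2 := continuous_snd.comp continuous_subtype_val
    have hVa : Continuous fun p : VV n => p.1.1 := continuous_fst.comp continuous_subtype_val
    have hX : Continuous X := continuous_pi fun i =>
      Complex.continuous_re.comp ((continuous_apply i).comp hVz)
    have hY : Continuous Y := continuous_pi fun i =>
      Complex.continuous_im.comp ((continuous_apply i).comp hVz)
    let R : ℝ → VV n → ℝ := fun s p => (1 - s) * (en (X p) ^ 2 - en (Y p) ^ 2) + s * (1 - rr p)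
    have hRx : ∀ (s : ℝ) (p : VV n), s ∈ Icc (0 : ℝ) 1 → X p = 0 → R s p ≤ 0 := by
      intro s p hs hx
      have h1 : rr p = 1 := ww_x0 _ hx
      have h2 : 0 ≤ en (Y p) ^ 2 := sq_nonneg _
      simp only [R, h1, hx, en_zero]
      have := hs.2
      nlinarith
    have hRy : ∀ (s : ℝ) (p : VV n), s ∈ Icc (0 : ℝ) 1 → Y p = 0 → 0 ≤ R s p := by
      intro s p hs hy
      have h1 : rr p ≤ 1 := ww_le_one _
      have h2 : 0 ≤ en (X p) ^ 2 := sq_nonneg _
      simp only [R, hy, en_zero]
      have := hs.2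
      have := hs.1
      have h3 : 0 ≤ (1 - s) * (en (X p) ^ 2 - 0 ^ 2) := by
        apply mul_nonneg <;> linarith
      have h4 : 0 ≤ s * (1 - rr p) := by
        apply mul_nonneg <;> linarith
      linarith
    have hmem : ∀ (s : ℝ) (p : VV n), s ∈ Icc (0 : ℝ) 1 →
        (f p.1.1 (rr p) s) ^ 3 + ∑ i, (Z (X p) (Y p) (R s p) (1 - s) i) ^ 2 = 1 := by
      intro s p hs
      have hr0 : 0 ≤ rr p := ww_nonneg _
      have hrt : p.1.1 ∈ tri → rr p = 0 := ww_tri (VV.re n p)
      rw [f3 _ _ _ hr0 hs hrt, Z2 _ _ _ _ (by linarith [hs.2]) (hRx s p hs) (hRy s p hs)]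
      have h1 := p.2
      have h2 : ∑ i, p.1.2 i ^ 2 = ((en (X p) ^ 2 - en (Y p) ^ 2 : ℝ) : ℂ) +
          2 * (∑ i, ((X p i : ℝ) : ℂ) * (Y p i : ℝ)) * Complex.I := by
        rw [en_sq, en_sq]
        push_cast
        rw [← Finset.sum_sub_distrib, Finset.mul_sum, Finset.sum_mul, ← Finset.sum_add_distrib]
        refine Finset.sum_congr rfl fun i _ => ?_
        have h3 : p.1.2 i = (X p i : ℂ) + (Y p i : ℂ) * Complex.I := (Complex.re_add_im _).symm
        rw [h3]
        linear_combination ((Y p i : ℝ) : ℂ) ^ 2 * Complex.I_sq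
      rw [h2] at h1
      simp only [R]
      push_cast
      push_cast at h1
      linear_combination (1 - (s : ℂ)) * h1
    let H : C(unitInterval × VV n, VV n) :=
      { toFun := fun q => ⟨(f q.2.1.1 (rr q.2) q.1, Z (X q.2) (Y q.2) (R q.1 q.2) (1 - q.1)),
          hmem q.1 q.2 q.1.2⟩
        continuous_toFun := by
          have hs : Continuous fun q : unitInterval × VV n => (q.1 : ℝ) :=
            continuous_subtype_val.comp continuous_fst
          refine Continuous.subtype_mk (Continuous.prodMk ?_ ?_) _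
          · exact hfc _ _ _ (hVa.comp continuous_snd) (hrr.comp continuous_snd) hs
              (fun q => ww_nonneg _) (fun q => q.1.2) (fun q h => ww_tri (VV.re n q.2) h)
          · refine hZc _ _ _ _ (hX.comp continuous_snd) (hY.comp continuous_snd) ?_
              (continuous_const.sub hs) (fun q => by linarith [q.1.2.2])
              (fun q h => hRx _ _ q.1.2 h) (fun q h => hRy _ _ q.1.2 h)
            have h1 : Continuous fun q : unitInterval × VV n => en (X q.2) :=
              continuous_en.comp (hX.comp continuous_snd)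
            have h2 : Continuous fun q : unitInterval × VV n => en (Y q.2) :=
              continuous_en.comp (hY.comp continuous_snd)
            have h3 : Continuous fun q : unitInterval × VV n => rr q.2 :=
              hrr.comp continuous_snd
            exact ((continuous_const.sub hs).mul ((h1.pow 2).sub (h2.pow 2))).add
              (hs.mul (continuous_const.sub h3)) }
    refine ContinuousMap.Homotopic.symm ⟨⟨H, fun p => ?_, fun p => ?_⟩⟩
    · apply Subtype.ext
      apply Prod.ext
      · change f p.1.1 (rr p) ((0 : unitInterval) : ℝ) = p.1.1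
        exact f0 _ _ (ww_nonneg _) (ww_tri (VV.re n p))
      · change Z (X p) (Y p) (R ((0 : unitInterval) : ℝ) p) (1 - ((0 : unitInterval) : ℝ)) = p.1.2
        have h1 : R ((0 : unitInterval) : ℝ) p = en (X p) ^ 2 - en (Y p) ^ 2 := by
          simp only [R, Icc.coe_zero]; ring
        rw [h1, Icc.coe_zero, sub_zero, Z1]
        funext i
        exact Complex.re_add_im _
    · apply Subtype.ext
      apply Prod.ext
      · rfl
      · change Z (X p) (Y p) (R ((1 : unitInterval) : ℝ) p) (1 - ((1 : unitInterval) : ℝ)) =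
          Z (X p) (X p) (1 - rr p) 0
        have h1 : R ((1 : unitInterval) : ℝ) p = 1 - rr p := by
          simp only [R, Icc.coe_one]; ring
        have h2 : 0 ≤ 1 - rr p := by
          have : rr p ≤ 1 := ww_le_one _
          linarith
        have h3 : X p = 0 → 1 - rr p = 0 := fun h => by
          have : rr p = 1 := ww_x0 _ h
          rw [this]; simp
        rw [h1, Icc.coe_one, sub_self, Z0 _ _ _ h2 h3, Z0 _ _ _ h2 h3]
  · -- re ∘ N ~ id
    have hZr : ∀ p : OO n, ∀ i, (Z p.1.2 p.1.2 (1 - ww p) 0 i).re =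
        Real.sqrt (1 - ww p) / en p.1.2 * p.1.2 i := by
      intro p i
      rw [Z0 _ _ _ (by have := ww_le_one p; linarith) (fun h => by rw [ww_x0 p h]; simp)]
      simp
    have hmem : ∀ (s : ℝ) (p : OO n), s ∈ Icc (0 : ℝ) 1 →
        ¬ ((fun i => (1 - s) * p.1.2 i + s * (Z p.1.2 p.1.2 (1 - ww p) 0 i).re) = 0 ∧
          ∃ t : ℝ, t ≤ 0 ∧ ((1 - (s : ℂ)) * p.1.1 + s * f p.1.1 (ww p) 1) ^ 3 = (t : ℂ)) := by
      rintro s p hs ⟨h1, h2⟩
      by_cases hx : p.1.2 = 0
      · have hw : ww p = 1 := ww_x0 p hx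
        have ha : p.1.1 ∉ tri := fun h => by
          have := ww_tri p h
          rw [hw] at this
          exact one_ne_zero this
        exact f1 p.1.1 (ww p) s (by rw [hw]; exact one_pos) hs ha h2
      · have hw : ww p < 1 := ww_lt_one p hx
        have hen : 0 < en p.1.2 := lt_of_le_of_ne (en_nonneg _)
          (fun h0 => hx (en_eq_zero.1 h0.symm))
        apply hx
        funext i
        have h3 := congrFun h1 i
        simp only [hZr, Pi.zero_apply] at h3 ⊢
        have h4 : ((1 - s) + s * (Real.sqrt (1 - ww p) / en p.1.2)) * p.1.2 i = 0 := by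
          refine Eq.trans ?_ h3; ring
        have h5 : 0 < Real.sqrt (1 - ww p) / en p.1.2 :=
          div_pos (Real.sqrt_pos.2 (by linarith)) hen
        have h6 : 0 < (1 - s) + s * (Real.sqrt (1 - ww p) / en p.1.2) := by
          rcases eq_or_lt_of_le hs.2 with h7 | h7
          · rw [h7]; simpa using h5
          · have : 0 ≤ s * (Real.sqrt (1 - ww p) / en p.1.2) := mul_nonneg hs.1 h5.le
            linarith
        exact (mul_eq_zero.1 h4).resolve_left h6.ne'
    have hNa : Continuous fun p : OO n => f p.1.1 (ww p) 1 :=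
      hfc _ _ _ hOa continuous_ww continuous_const ww_nonneg
        (fun _ => right_mem_Icc.2 zero_le_one) ww_tri
    have hNz : Continuous fun p : OO n => Z p.1.2 p.1.2 (1 - ww p) 0 :=
      hZc _ _ _ _ hOx hOx (continuous_const.sub continuous_ww) continuous_const
        (fun _ => le_refl _) (fun p h => by rw [ww_x0 p h]; simp)
        (fun p _ => by have := ww_le_one p; linarith)
    let H : C(unitInterval × OO n, OO n) :=
      { toFun := fun q => ⟨((1 - ((q.1 : ℝ) : ℂ)) * q.2.1.1 + ((q.1 : ℝ) : ℂ) * f q.2.1.1 (ww q.2) 1,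
          fun i => (1 - (q.1 : ℝ)) * q.2.1.2 i + (q.1 : ℝ) *
            (Z q.2.1.2 q.2.1.2 (1 - ww q.2) 0 i).re), hmem q.1 q.2 q.1.2⟩
        continuous_toFun := by
          have hs : Continuous fun q : unitInterval × OO n => (q.1 : ℝ) :=
            continuous_subtype_val.comp continuous_fst
          have hsc : Continuous fun q : unitInterval × OO n => ((q.1 : ℝ) : ℂ) :=
            Complex.continuous_ofReal.comp hs
          refine Continuous.subtype_mk (Continuous.prodMk ?_ ?_) _
          · exact ((continuous_const.sub hsc).mul (hOa.comp continuous_snd)).add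
              (hsc.mul (hNa.comp continuous_snd))
          · refine continuous_pi fun i => ?_
            exact ((continuous_const.sub hs).mul ((continuous_apply i).comp
              (hOx.comp continuous_snd))).add (hs.mul (Complex.continuous_re.comp
              ((continuous_apply i).comp (hNz.comp continuous_snd)))) }
    refine ContinuousMap.Homotopic.symm ⟨⟨H, fun p => ?_, fun p => ?_⟩⟩
    · apply Subtype.ext
      apply Prod.ext
      · change (1 - (((0 : unitInterval) : ℝ) : ℂ)) * p.1.1 +
          (((0 : unitInterval) : ℝ) : ℂ) * f p.1.1 (ww p) 1 = p.1.1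
        simp
      · funext i
        change (1 - ((0 : unitInterval) : ℝ)) * p.1.2 i + ((0 : unitInterval) : ℝ) *
            (Z p.1.2 p.1.2 (1 - ww p) 0 i).re = p.1.2 i
        simp
    · apply Subtype.ext
      apply Prod.ext
      · change (1 - (((1 : unitInterval) : ℝ) : ℂ)) * p.1.1 +
          (((1 : unitInterval) : ℝ) : ℂ) * f p.1.1 (ww p) 1 = f p.1.1 (ww p) 1
        simp
      · funext i
        change (1 - ((1 : unitInterval) : ℝ)) * p.1.2 i + ((1 : unitInterval) : ℝ) *
            (Z p.1.2 p.1.2 (1 - ww p) 0 i).re = (Z p.1.2 p.1.2 (1 - ww p) 0 i).re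
        simp

end Pool.Agent.H79.LB
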