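import Pool.Agent.H64.LB.Targets

/-!
# MP_2059f1_ag, module L-ZED: complex vectors with prescribed square
-/

open Topology Set Filter

namespace Pool.Agent.H79.LB

open Pool.Agent.H64.LB

section En
variable {n : ℕ}

theorem en_nonneg (x : Fin n → ℝ) : 0 ≤ en x := Real.sqrt_nonneg _

theorem en_sq (x : Fin n → ℝ) : en x ^ 2 = ∑ i, x i ^ 2 :=
  Real.sq_sqrt (Finset.sum_nonneg fun _ _ => sq_nonneg _)

theorem abs_le_en (x : Fin n → ℝ) (i : Fin n) : |x i| ≤ en x := by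
  apply Real.abs_le_sqrt
  exact Finset.single_le_sum (f := fun i => x i ^ 2) (fun i _ => sq_nonneg _) (Finset.mem_univ i)

theorem en_eq_zero {x : Fin n → ℝ} : en x = 0 ↔ x = 0 := by
  constructor
  · intro h
    funext i
    have h1 := abs_le_en x i
    rw [h] at h1
    exact abs_eq_zero.1 (le_antisymm h1 (abs_nonneg _))
  · rintro rfl
    simp [en]

theorem en_zero : en (0 : Fin n → ℝ) = 0 := en_eq_zero.2 rfl

theorem continuous_en : Continuous (en : (Fin n → ℝ) → ℝ) := by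
  unfold en
  fun_prop

theorem continuousAt_scale {P : Type} [TopologicalSpace P] {M : P → ℝ} {X : P → Fin n → ℝ}
    (hM : Continuous M) (hM0 : ∀ p, 0 ≤ M p) (hX : Continuous X) (i : Fin n) (p : P)
    (h : X p = 0 → M p = 0) : ContinuousAt (fun p => M p / en (X p) * X p i) p := by
  have hXi : Continuous fun p => X p i := (continuous_apply i).comp hX
  by_cases hx : X p = 0
  · have h0 : M p = 0 := h hx
    have h1 : M p / en (X p) * X p i = 0 := by rw [h0]; simp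
    rw [ContinuousAt, h1]
    refine squeeze_zero_norm (a := M) (fun q => ?_) (by
      have := hM.tendsto p
      rw [h0] at this
      exact this)
    rw [Real.norm_eq_abs, abs_mul, abs_div, abs_of_nonneg (hM0 q), abs_of_nonneg (en_nonneg _)]
    by_cases hq : en (X q) = 0
    · rw [hq]; simp [hM0 q]
    · have hq' : 0 < en (X q) := lt_of_le_of_ne (en_nonneg _) (Ne.symm hq)
      calc M q / en (X q) * |X q i| ≤ M q / en (X q) * en (X q) := by
            apply mul_le_mul_of_nonneg_left (abs_le_en _ _)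
            exact div_nonneg (hM0 q) hq'.le
        _ = M q := by field_simp
  · have h1 : en (X p) ≠ 0 := fun h0 => hx (en_eq_zero.1 h0)
    exact (hM.continuousAt.div (continuous_en.comp hX).continuousAt h1).mul hXi.continuousAt

/-- discriminant -/
noncomputable def dd (x y : Fin n → ℝ) (ρ μ : ℝ) : ℝ :=
  Real.sqrt (ρ ^ 2 + 4 * μ ^ 2 * en x ^ 2 * en y ^ 2)

noncomputable def m1 (x y : Fin n → ℝ) (ρ μ : ℝ) : ℝ := Real.sqrt ((ρ + dd x y ρ μ) / 2)
noncomputable def m2 (x y : Fin n → ℝ) (ρ μ : ℝ) : ℝ := Real.sqrt ((-ρ + dd x y ρ μ) / 2)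

theorem abs_le_dd (x y : Fin n → ℝ) (ρ μ : ℝ) : |ρ| ≤ dd x y ρ μ := by
  apply Real.abs_le_sqrt
  have : 0 ≤ 4 * μ ^ 2 * en x ^ 2 * en y ^ 2 := by positivity
  linarith

theorem dd_sq (x y : Fin n → ℝ) (ρ μ : ℝ) :
    dd x y ρ μ ^ 2 = ρ ^ 2 + 4 * μ ^ 2 * en x ^ 2 * en y ^ 2 :=
  Real.sq_sqrt (by positivity)

theorem m1_sq (x y : Fin n → ℝ) (ρ μ : ℝ) : m1 x y ρ μ ^ 2 = (ρ + dd x y ρ μ) / 2 :=
  Real.sq_sqrt (by have := abs_le_dd x y ρ μ; have := neg_abs_le ρ; linarith)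

theorem m2_sq (x y : Fin n → ℝ) (ρ μ : ℝ) : m2 x y ρ μ ^ 2 = (-ρ + dd x y ρ μ) / 2 :=
  Real.sq_sqrt (by have := abs_le_dd x y ρ μ; have := le_abs_self ρ; linarith)

theorem m1_nonneg (x y : Fin n → ℝ) (ρ μ : ℝ) : 0 ≤ m1 x y ρ μ := Real.sqrt_nonneg _
theorem m2_nonneg (x y : Fin n → ℝ) (ρ μ : ℝ) : 0 ≤ m2 x y ρ μ := Real.sqrt_nonneg _

theorem m1_zero {x y : Fin n → ℝ} {ρ μ : ℝ} (hx : x = 0) (hρ : ρ ≤ 0) : m1 x y ρ μ = 0 := by
  have h1 : dd x y ρ μ = -ρ := by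
    rw [dd, hx, en_zero]
    rw [show ρ ^ 2 + 4 * μ ^ 2 * 0 ^ 2 * en y ^ 2 = ρ ^ 2 by ring, Real.sqrt_sq_eq_abs,
      abs_of_nonpos hρ]
  rw [m1, h1]
  simp

theorem m2_zero {x y : Fin n → ℝ} {ρ μ : ℝ} (hy : y = 0) (hρ : 0 ≤ ρ) : m2 x y ρ μ = 0 := by
  have h1 : dd x y ρ μ = ρ := by
    rw [dd, hy, en_zero]
    rw [show ρ ^ 2 + 4 * μ ^ 2 * en x ^ 2 * 0 ^ 2 = ρ ^ 2 by ring, Real.sqrt_sq_eq_abs,
      abs_of_nonneg hρ]
  rw [m2, h1]
  simp

theorem m1_mul_m2 (x y : Fin n → ℝ) {ρ μ : ℝ} (hμ : 0 ≤ μ) :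
    m1 x y ρ μ * m2 x y ρ μ = μ * en x * en y := by
  have h1 : (m1 x y ρ μ * m2 x y ρ μ) ^ 2 = (μ * en x * en y) ^ 2 := by
    rw [mul_pow, m1_sq, m2_sq]
    have := dd_sq x y ρ μ
    linear_combination this / 4
  have h2 : 0 ≤ m1 x y ρ μ * m2 x y ρ μ := mul_nonneg (m1_nonneg _ _ _ _) (m2_nonneg _ _ _ _)
  have h3 : 0 ≤ μ * en x * en y := mul_nonneg (mul_nonneg hμ (en_nonneg _)) (en_nonneg _)
  exact (pow_left_inj₀ h2 h3 two_ne_zero).1 h1

/-- the vector -/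
noncomputable def ZZ (x y : Fin n → ℝ) (ρ μ : ℝ) : Fin n → ℂ := fun i =>
  ((m1 x y ρ μ / en x * x i : ℝ) : ℂ) + ((m2 x y ρ μ / en y * y i : ℝ) : ℂ) * Complex.I

theorem continuous_dd : Continuous
    (fun p : (Fin n → ℝ) × (Fin n → ℝ) × ℝ × ℝ => dd p.1 p.2.1 p.2.2.1 p.2.2.2) := by
  unfold dd
  have h1 : Continuous fun p : (Fin n → ℝ) × (Fin n → ℝ) × ℝ × ℝ => en p.1 :=
    continuous_en.comp continuous_fst
  have h2 : Continuous fun p : (Fin n → ℝ) × (Fin n → ℝ) × ℝ × ℝ => en p.2.1 :=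
    continuous_en.comp (continuous_fst.comp continuous_snd)
  fun_prop

theorem continuous_m1 : Continuous
    (fun p : (Fin n → ℝ) × (Fin n → ℝ) × ℝ × ℝ => m1 p.1 p.2.1 p.2.2.1 p.2.2.2) := by
  unfold m1
  have h1 := continuous_dd (n := n)
  fun_prop

theorem continuous_m2 : Continuous
    (fun p : (Fin n → ℝ) × (Fin n → ℝ) × ℝ × ℝ => m2 p.1 p.2.1 p.2.2.1 p.2.2.2) := by
  unfold m2
  have h1 := continuous_dd (n := n)
  fun_prop

end En

/-- **L-ZED** -/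
theorem zed : T_ZED := by
  intro n
  refine ⟨ZZ, ?_, ?_, ?_, ?_⟩
  · rintro p ⟨hμ, hx, hy⟩
    apply ContinuousAt.continuousWithinAt
    rw [continuousAt_pi]
    intro i
    refine ContinuousAt.add ?_ (ContinuousAt.mul ?_ continuousAt_const)
    · refine Complex.continuous_ofReal.continuousAt.comp ?_
      exact continuousAt_scale (M := fun p : (Fin n → ℝ) × (Fin n → ℝ) × ℝ × ℝ =>
          m1 p.1 p.2.1 p.2.2.1 p.2.2.2) (X := fun p => p.1) continuous_m1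
        (fun p => m1_nonneg _ _ _ _) continuous_fst i p (fun h => m1_zero h (hx h))
    · refine Complex.continuous_ofReal.continuousAt.comp ?_
      exact continuousAt_scale (M := fun p : (Fin n → ℝ) × (Fin n → ℝ) × ℝ × ℝ =>
          m2 p.1 p.2.1 p.2.2.1 p.2.2.2) (X := fun p => p.2.1) continuous_m2
        (fun p => m2_nonneg _ _ _ _) (continuous_fst.comp continuous_snd) i p
        (fun h => m2_zero h (hy h))
  · intro x y ρ μ hμ hx hy
    have h1 : (m1 x y ρ μ / en x) ^ 2 * en x ^ 2 = m1 x y ρ μ ^ 2 := by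
      by_cases hx0 : x = 0
      · rw [m1_zero hx0 (hx hx0)]; simp
      · have : en x ≠ 0 := fun h => hx0 (en_eq_zero.1 h)
        field_simp
    have h2 : (m2 x y ρ μ / en y) ^ 2 * en y ^ 2 = m2 x y ρ μ ^ 2 := by
      by_cases hy0 : y = 0
      · rw [m2_zero hy0 (hy hy0)]; simp
      · have : en y ≠ 0 := fun h => hy0 (en_eq_zero.1 h)
        field_simp
    have h3 : (m1 x y ρ μ / en x) * (m2 x y ρ μ / en y) * (∑ i, x i * y i) =
        μ * ∑ i, x i * y i := by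
      by_cases hx0 : x = 0
      · rw [hx0]; simp
      · by_cases hy0 : y = 0
        · rw [hy0]; simp
        · have e1 : en x ≠ 0 := fun h => hx0 (en_eq_zero.1 h)
          have e2 : en y ≠ 0 := fun h => hy0 (en_eq_zero.1 h)
          have e3 := m1_mul_m2 x y (ρ := ρ) hμ
          have e4 : (m1 x y ρ μ / en x) * (m2 x y ρ μ / en y) = μ := by
            rw [div_mul_div_comm, e3]
            field_simp
          rw [e4]
    have h4 : m1 x y ρ μ ^ 2 - m2 x y ρ μ ^ 2 = ρ := by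
      rw [m1_sq, m2_sq]; ring
    set α := m1 x y ρ μ / en x
    set β := m2 x y ρ μ / en y
    have h5 : ∀ i, ZZ x y ρ μ i ^ 2 = ((α ^ 2 * x i ^ 2 - β ^ 2 * y i ^ 2 : ℝ) : ℂ) +
        2 * ((α * β * (x i * y i) : ℝ) : ℂ) * Complex.I := by
      intro i
      change (((α * x i : ℝ) : ℂ) + ((β * y i : ℝ) : ℂ) * Complex.I) ^ 2 = _
      push_cast
      have := Complex.I_sq
      linear_combination ((β : ℂ) * (y i : ℂ)) ^ 2 * this
    rw [Finset.sum_congr rfl fun i _ => h5 i, Finset.sum_add_distrib, ← Finset.sum_mul,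
      ← Finset.mul_sum, ← Complex.ofReal_sum, ← Complex.ofReal_sum, Finset.sum_sub_distrib,
      ← Finset.mul_sum, ← Finset.mul_sum, ← Finset.mul_sum, ← en_sq, ← en_sq, h1, h2, h4, h3]
    push_cast
    ring
  · intro x y
    have h1 : dd x y (en x ^ 2 - en y ^ 2) 1 = en x ^ 2 + en y ^ 2 := by
      rw [dd]
      rw [show (en x ^ 2 - en y ^ 2) ^ 2 + 4 * 1 ^ 2 * en x ^ 2 * en y ^ 2 =
        (en x ^ 2 + en y ^ 2) ^ 2 by ring]
      exact Real.sqrt_sq (by positivity)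
    have h2 : m1 x y (en x ^ 2 - en y ^ 2) 1 = en x := by
      rw [m1, h1, show (en x ^ 2 - en y ^ 2 + (en x ^ 2 + en y ^ 2)) / 2 = en x ^ 2 by ring]
      exact Real.sqrt_sq (en_nonneg x)
    have h3 : m2 x y (en x ^ 2 - en y ^ 2) 1 = en y := by
      rw [m2, h1, show (-(en x ^ 2 - en y ^ 2) + (en x ^ 2 + en y ^ 2)) / 2 = en y ^ 2 by ring]
      exact Real.sqrt_sq (en_nonneg y)
    have h4 : ∀ (z : Fin n → ℝ) (i : Fin n), en z / en z * z i = z i := by
      intro z i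
      by_cases hz : z = 0
      · rw [hz]; simp
      · rw [div_self (fun h => hz (en_eq_zero.1 h)), one_mul]
    funext i
    rw [ZZ, h2, h3, h4, h4]
  · intro x y ρ hρ _
    have h1 : dd x y ρ 0 = ρ := by
      rw [dd, show ρ ^ 2 + 4 * 0 ^ 2 * en x ^ 2 * en y ^ 2 = ρ ^ 2 by ring]
      exact Real.sqrt_sq hρ
    have h2 : m1 x y ρ 0 = Real.sqrt ρ := by
      rw [m1, h1]; congr 1; ring
    have h3 : m2 x y ρ 0 = 0 := by
      rw [m2, h1]; simp
    funext i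
    rw [ZZ, h2, h3]
    simp

end Pool.Agent.H79.LB
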